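import Pool.Agent.Q103.EC.Stm1

/-!
Project EC (helper103), job A2: the local estimate for Lipschitz values.
-/

set_option autoImplicit false
set_option linter.unusedSectionVars false

namespace Pool.Agent.Q95.EC

open Finset Polynomial FF
open Pool.Agent.Q41.SU Pool.Agent.Q41.GT Pool.Agent.Q103.EC

/-- representatives of the classes -/
theorem reps {ι A : Type} (c : ℕ → ι → A) :
    ∃ ρ : ℕ → ι → ι, (∀ i l, ∀ j < i, c j (ρ i l) = c j l) ∧
      ∀ i l m, (∀ j < i, c j l = c j m) → ρ i l = ρ i m := by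
  classical
  let S : ℕ → Setoid ι := fun i => ⟨fun l m => ∀ j < i, c j l = c j m, fun _ _ _ => rfl,
    fun h j hj => (h j hj).symm, fun h h' j hj => (h j hj).trans (h' j hj)⟩
  refine ⟨fun i l => Quotient.out (Quotient.mk (S i) l), ?_, ?_⟩
  · intro i l j hj
    have h := Quotient.exact (Quotient.out_eq (Quotient.mk (S i) l))
    exact h j hj
  · intro i l m h
    have h1 : Quotient.mk (S i) l = Quotient.mk (S i) m := Quotient.sound h
    simp only [h1]

section place

variable {k K : Type} [Field k] [Field K] [Algebra k K] (v : Place k K)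

theorem reg_div {π : K} (hπ0 : π ≠ 0) (hπ : v.ord π = 1) (i : ℕ) {x : K}
    (h : x = 0 ∨ (i : ℤ) ≤ v.ord x) : v.Reg (x / π ^ i) := by
  by_cases hx : x = 0
  · left
    rw [hx, zero_div]
  · right
    rw [v.ord_div hx (pow_ne_zero _ hπ0), v.ord_pow, hπ]
    rcases h with h | h
    · exact absurd h hx
    · omega

/-- expansion of Lipschitz values -/
theorem val_dec {π : K} (hπ0 : π ≠ 0) (hπ : v.ord π = 1) {J : Type} (w y : J → K)
    (hw : Function.Injective w) (hy : ∀ l, v.Reg (y l))
    (hs : ∀ l m, l ≠ m → v.Reg (slp w y l m)) (c : ℕ → J → K) (M : ℕ)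
    (hc : ∀ i ≤ M, ∀ l m, (∀ j < i, c j m = c j l) ↔ (m = l ∨ (i : ℤ) ≤ v.ord (w l - w m))) :
    ∃ (e : ℕ → J → K) (η' : J → K), (∀ i l, v.Reg (e i l)) ∧ (∀ l, v.Reg (η' l)) ∧
      (∀ l, y l = ∑ i ∈ range M, e i l * π ^ i + π ^ M * η' l) ∧
      ∀ i l m, (∀ j < i + 1, c j l = c j m) → e i l = e i m := by
  classical
  obtain ⟨ρ, hρ1, hρ2⟩ := reps c
  have hdiff : ∀ i ≤ M, ∀ l m, (∀ j < i, c j l = c j m) →
      y l - y m = 0 ∨ (i : ℤ) ≤ v.ord (y l - y m) := by
    intro i hi l m h
    by_cases hlm : l = m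
    · left
      rw [hlm, sub_self]
    · have h1 := (hc i hi l m).1 fun j hj => (h j hj).symm
      rcases h1 with h1 | h1
      · exact absurd h1.symm hlm
      · have hwne : w l - w m ≠ 0 := sub_ne_zero.2 fun h => hlm (hw h)
        have e1 : y l - y m = slp w y l m * (w l - w m) := by
          unfold slp
          field_simp
        by_cases h2 : slp w y l m = 0
        · left
          rw [e1, h2, zero_mul]
        · right
          rw [e1, v.ord_mul h2 hwne]
          have h3 := (v.reg_iff h2).1 (hs l m hlm)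
          omega
  let Y : ℕ → J → K := fun i l => if i = 0 then 0 else y (ρ i l)
  have hYdep : ∀ i l m, (∀ j < i, c j l = c j m) → Y i l = Y i m := by
    intro i l m h
    simp only [Y]
    by_cases hi : i = 0
    · rw [if_pos hi, if_pos hi]
    · rw [if_neg hi, if_neg hi, hρ2 i l m h]
  refine ⟨fun i l => if i < M then (Y (i + 1) l - Y i l) / π ^ i else 0,
    fun l => (y l - Y M l) / π ^ M, ?_, ?_, ?_, ?_⟩
  · intro i l
    show v.Reg (if i < M then (Y (i + 1) l - Y i l) / π ^ i else 0)
    by_cases hi : i < M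
    · rw [if_pos hi]
      by_cases hi0 : i = 0
      · subst hi0
        simp only [Y, zero_add, if_pos, pow_zero, div_one, sub_zero, one_ne_zero, if_false]
        exact hy _
      · apply reg_div v hπ0 hπ
        simp only [Y, if_neg hi0, Nat.succ_ne_zero, if_false]
        refine hdiff i hi.le _ _ ?_
        intro j hj
        rw [hρ1 (i + 1) l j (by omega), hρ1 i l j hj]
    · rw [if_neg hi]
      exact v.reg_zero
  · intro l
    by_cases hM : M = 0
    · subst hM
      simp only [Y, if_pos, pow_zero, div_one, sub_zero]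
      exact hy l
    · apply reg_div v hπ0 hπ
      simp only [Y, if_neg hM]
      exact hdiff M le_rfl _ _ fun j hj => (hρ1 M l j hj).symm
  · intro l
    have h1 : ∑ i ∈ range M, (if i < M then (Y (i + 1) l - Y i l) / π ^ i else 0) * π ^ i =
        ∑ i ∈ range M, (Y (i + 1) l - Y i l) := by
      refine Finset.sum_congr rfl fun i hi => ?_
      rw [if_pos (Finset.mem_range.1 hi), div_mul_cancel₀ _ (pow_ne_zero _ hπ0)]
    rw [h1, Finset.sum_range_sub (fun i => Y i l) M, mul_div_cancel₀ _ (pow_ne_zero _ hπ0)]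
    have h2 : Y 0 l = 0 := by simp only [Y, if_pos]
    rw [h2]
    ring
  · intro i l m h
    by_cases hi : i < M
    · simp only [if_pos hi]
      rw [hYdep (i + 1) l m h, hYdep i l m fun j hj => h j (by omega)]
    · simp only [if_neg hi]

end place

theorem cf1 {R : Type} [CommRing R] (a b : R) :
    PowerSeries.coeff (R := R) 1 (PowerSeries.C a + PowerSeries.X * PowerSeries.C b) = b := by
  have h := PowerSeries.coeff_succ_X_mul 0 (PowerSeries.C b)
  rw [zero_add] at h
  rw [map_add, PowerSeries.coeff_C, if_neg one_ne_zero, zero_add, h,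
    PowerSeries.coeff_zero_C]

theorem cf0 {R : Type} [CommRing R] (a b : R) :
    PowerSeries.constantCoeff (R := R) (PowerSeries.C a + PowerSeries.X * PowerSeries.C b) = a := by
  rw [map_add, map_mul, PowerSeries.constantCoeff_X, zero_mul, add_zero,
    PowerSeries.constantCoeff_C]

theorem map_bd {A B : Type} [CommRing A] [CommRing B] (f : A →+* B) (a b : ℕ)
    (u v : II a b → A) : f (bd a b u v) = bd a b (fun l => f (u l)) (fun l => f (v l)) := by
  rw [bd, bd, RingHom.map_det]
  congr 1
  ext l c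
  simp [Matrix.map_apply]

theorem ord_int {k K : Type} [Field k] [CharZero k] [Field K] [Algebra k K] (v : Place k K)
    {κ : ℤ} (hκ : κ ≠ 0) : v.ord (κ : K) = 0 := by
  have h := v.ord_const (c := (κ : k)) (Int.cast_ne_zero.2 hκ)
  rwa [map_intCast] at h

/-- **EC-A2.** -/
theorem lgc (hB : S_bgc.{0}) (hD : S_dgt) : S_lgc := by
  classical
  intro k K _ _ _ _ v a b M φ κ hκ hW w y hw hwr hyr hs hM hne
  obtain ⟨π, c, η, hπ, hc, hη, hz, hcl⟩ := hD k K v (II a b) w hw hwr M
  have hπ0 : π ≠ 0 := by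
    rintro rfl
    rw [v.ord_zero] at hπ
    omega
  obtain ⟨e, η', he, hη', hy, hedep⟩ := val_dec v hπ0 hπ w y hw hyr hs c M hcl
  have hπr : v.Reg π := Or.inr (by rw [hπ]; exact zero_le_one)
  set πO : v.O := ⟨π, v.mem_O.2 hπr⟩ with hπO
  set cO : ℕ → II a b → v.O := fun i l => ⟨c i l, v.mem_O.2 (hc i l)⟩ with hcO
  set eO : ℕ → II a b → v.O := fun i l => ⟨e i l, v.mem_O.2 (he i l)⟩ with heO
  set ηO : II a b → v.O := fun l => ⟨η l, v.mem_O.2 (hη l)⟩ with hηO
  set ηO' : II a b → v.O := fun l => ⟨η' l, v.mem_O.2 (hη' l)⟩ with hηO'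
  set C1 : ℕ → II a b → PowerSeries v.O := fun i l =>
    PowerSeries.C (cO i l) + PowerSeries.X * PowerSeries.C (eO i l) with hC1
  have hc1 : ∀ i l m, C1 i l = C1 i m → c i l = c i m ∧ e i l = e i m := by
    intro i l m h
    have h1 := congrArg (PowerSeries.constantCoeff (R := v.O)) h
    have h2 := congrArg (PowerSeries.coeff (R := v.O) 1) h
    simp only [hC1] at h1 h2
    rw [cf0, cf0] at h1
    rw [cf1, cf1] at h2
    exact ⟨congrArg Subtype.val h1, congrArg Subtype.val h2⟩
  have hbg := hB (PowerSeries v.O) a b M (PowerSeries.C πO) (PowerSeries.C πO) C1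
    (fun i l => PowerSeries.C (cO i l))
    (fun l => PowerSeries.C (ηO l) + PowerSeries.X * PowerSeries.C (ηO' l))
    (fun l => PowerSeries.C (ηO l)) (by
      intro i l m h
      have h1 := (hc1 i l m h).1
      have h2 : cO i l = cO i m := Subtype.ext h1
      simp only [h2])
  -- the classes
  have hdcl : ∀ i ∈ Icc 1 M, ∀ l, dcl C1 i l = cnt (fun l m => v.ord (w l - w m)) i l := by
    intro i hi l
    rw [Finset.mem_Icc] at hi
    unfold dcl cnt
    rw [← Set.ncard_coe_finset]
    congr 1
    ext m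
    simp only [Set.mem_ofPred_eq, coe_filter, mem_univ, true_and]
    rw [← hcl i hi.2 l m]
    constructor
    · intro h j hj
      exact (hc1 j m l (h j hj)).1
    · intro h j hj
      have h1 : cO j m = cO j l := Subtype.ext (h j hj)
      have h2 : eO j m = eO j l := Subtype.ext (hedep j m l fun j' hj' => h j' (by omega))
      simp only [hC1, h1, h2]
  have hLS : ∑ i ∈ Icc 1 M, ∑ l, (phi 1 1 a b (dcl C1 i l) : ℝ) / (dcl C1 i l : ℝ) =
      LS (fun n => (phi 1 1 a b n : ℝ)) M (fun l m => v.ord (w l - w m)) := by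
    unfold LS
    refine Finset.sum_congr rfl fun i hi => Finset.sum_congr rfl fun l _ => ?_
    rw [hdcl i hi l]
  set L := LS (fun n => (phi 1 1 a b n : ℝ)) M (fun l m => v.ord (w l - w m)) with hL
  set V := ⌈L⌉₊ with hV
  have hmem : bd a b (fun l => ∑ i ∈ range M, C1 i l * (PowerSeries.C πO) ^ i +
      (PowerSeries.C πO) ^ M * (PowerSeries.C (ηO l) + PowerSeries.X * PowerSeries.C (ηO' l)))
      (fun l => ∑ i ∈ range M, PowerSeries.C (cO i l) * (PowerSeries.C πO) ^ i +
        (PowerSeries.C πO) ^ M * PowerSeries.C (ηO l)) ∈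
      Ideal.span {(PowerSeries.C πO : PowerSeries v.O) ^ V} := by
    refine (Ideal.span_le.2 ?_) hbg
    rintro z ⟨m, n, rfl, hmn⟩
    have h1 := hmn 1 1
    rw [hLS] at h1
    have h2 : V ≤ m + n := by
      rw [hV]
      apply Nat.ceil_le.2
      refine h1.trans (le_of_eq ?_)
      push_cast
      ring
    rw [SetLike.mem_coe, Ideal.mem_span_singleton, ← pow_add]
    exact pow_dvd_pow _ h2
  rw [Ideal.mem_span_singleton] at hmem
  obtain ⟨B, hB'⟩ := hmem
  -- map to `K`
  set f : PowerSeries v.O →+* PowerSeries K := PowerSeries.map v.O.subtype with hf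
  have hfC : ∀ x : v.O, f (PowerSeries.C x) = PowerSeries.C (x : K) := by
    intro x
    rw [hf, PowerSeries.map_C]
    rfl
  have hfX : f PowerSeries.X = PowerSeries.X := by rw [hf, PowerSeries.map_X]
  have e1 : ∀ l, f (∑ i ∈ range M, C1 i l * (PowerSeries.C πO) ^ i +
      (PowerSeries.C πO) ^ M * (PowerSeries.C (ηO l) + PowerSeries.X * PowerSeries.C (ηO' l))) =
      PowerSeries.C (w l) + PowerSeries.X * PowerSeries.C (y l) := by
    intro l
    simp only [hC1, map_add, map_mul, map_sum, map_pow, hfC, hfX]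
    rw [hz l, hy l]
    simp only [map_add, map_mul, map_sum, map_pow]
    have h3 : ∀ i, (PowerSeries.C ((cO i l : v.O) : K) + PowerSeries.X * PowerSeries.C ((eO i l : v.O) : K)) *
        (PowerSeries.C (πO : K)) ^ i =
        PowerSeries.C (c i l) * PowerSeries.C π ^ i +
          PowerSeries.X * (PowerSeries.C (e i l) * PowerSeries.C π ^ i) := by
      intro i
      simp only [hcO, heO, hπO]
      ring
    rw [Finset.sum_congr rfl fun i _ => h3 i, Finset.sum_add_distrib, ← Finset.mul_sum]
    simp only [hηO, hηO', hπO]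
    ring
  have e2 : ∀ l, f (∑ i ∈ range M, PowerSeries.C (cO i l) * (PowerSeries.C πO) ^ i +
      (PowerSeries.C πO) ^ M * PowerSeries.C (ηO l)) = PowerSeries.C (w l) := by
    intro l
    simp only [map_add, map_mul, map_sum, map_pow, hfC]
    rw [hz l]
    simp only [map_add, map_mul, map_sum, map_pow]
    rfl
  have h4 := congrArg f hB'
  rw [map_bd, map_mul, map_pow, hfC] at h4
  simp only [e1, e2] at h4
  obtain ⟨R, hR⟩ := hW K w y (fun l => PowerSeries.C (w l) + PowerSeries.X * PowerSeries.C (y l))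
    (fun l => cf0 _ _) (fun l => cf1 _ _)
  rw [h4] at hR
  have h5 := congrArg (PowerSeries.coeff (R := K) (cst φ)) hR
  have h6 : PowerSeries.coeff (R := K) (cst φ) (PowerSeries.X ^ cst φ *
      (PowerSeries.C (wro φ w y) + PowerSeries.X * R)) = wro φ w y := by
    have := PowerSeries.coeff_X_pow_mul (PowerSeries.C (wro φ w y) + PowerSeries.X * R) (cst φ) 0
    rw [zero_add] at this
    rw [this, PowerSeries.coeff_zero_eq_constantCoeff_apply]
    simp
  have h7 : PowerSeries.coeff (R := K) (cst φ) ((κ : PowerSeries K) *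
      ((PowerSeries.C (πO : K)) ^ V * f B)) =
      (κ : K) * (π ^ V * ((PowerSeries.coeff (R := v.O) (cst φ) B : v.O) : K)) := by
    have h8 : (κ : PowerSeries K) * ((PowerSeries.C (πO : K)) ^ V * f B) =
        PowerSeries.C ((κ : K) * π ^ V) * f B := by
      rw [map_mul, map_pow, map_intCast]
      ring
    rw [h8, PowerSeries.coeff_C_mul, hf, PowerSeries.coeff_map]
    simp only [ValuationSubring.subtype_apply, mul_assoc]
  rw [h6, h7] at h5
  set β : K := ((PowerSeries.coeff (R := v.O) (cst φ) B : v.O) : K) with hβ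
  have hβr : v.Reg β := v.mem_O.1 (PowerSeries.coeff (R := v.O) (cst φ) B).2
  have hκK : (κ : K) ≠ 0 := by
    intro h
    apply hne
    rw [← h5, h, zero_mul]
  have hβ0 : β ≠ 0 := by
    intro h
    apply hne
    rw [← h5, h, mul_zero, mul_zero]
  have h9 : v.ord (wro φ w y) = V + v.ord β := by
    rw [← h5, v.ord_mul hκK (mul_ne_zero (pow_ne_zero _ hπ0) hβ0),
      v.ord_mul (pow_ne_zero _ hπ0) hβ0, v.ord_pow, hπ, ord_int v hκ]
    ring
  have h10 := (v.reg_iff hβ0).1 hβr
  have h11 : (V : ℤ) ≤ v.ord (wro φ w y) := by omega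
  have h12 : L ≤ (V : ℝ) := Nat.le_ceil L
  have h13 : (V : ℝ) ≤ (v.ord (wro φ w y) : ℝ) := by exact_mod_cast h11
  exact h12.trans h13

end Pool.Agent.Q95.EC
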